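import Mathlib

/-!
# Companion matrices and algebraic integers of bounded degree

Project HC of helper741, part HC/2 (matrices), by helper776.
-/

set_option autoImplicit false

namespace Pool.Agent.N776.HC

open Finset MvPolynomial Matrix

section mat

variable {κ : ℕ} {R S : Type*} [CommRing R] [CommRing S]

/-- the companion matrix of `A ^ κ + ∑ m l * A ^ l` -/
def cm (m : Fin κ → R) : Matrix (Fin κ) (Fin κ) R :=
  Matrix.of fun i j => (if (i : ℕ) = (j : ℕ) + 1 then 1 else 0) -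
    (if (j : ℕ) + 1 = κ then m i else 0)

/-- the matrix of `∑ v l * A ^ l` -/
def mx (m v : Fin κ → R) : Matrix (Fin κ) (Fin κ) R := ∑ l, v l • cm m ^ (l : ℕ)

theorem cm_map (f : R →+* S) (m : Fin κ → R) :
    f.mapMatrix (cm m) = cm fun l => f (m l) := by
  ext i j
  simp only [cm, RingHom.mapMatrix_apply, Matrix.map_apply, Matrix.of_apply, map_sub]
  congr 1 <;> split_ifs <;> simp

theorem mx_map (f : R →+* S) (m v : Fin κ → R) :
    f.mapMatrix (mx m v) = mx (fun l => f (m l)) fun l => f (v l) := by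
  simp only [mx, map_sum]
  refine Finset.sum_congr rfl fun l _ => ?_
  rw [← cm_map, ← map_pow]
  ext i j
  simp

/-- the row vector of powers of `a` -/
def wv (a : R) : Fin κ → R := fun l => a ^ (l : ℕ)

theorem vecMul_cm (m : Fin κ → R) (a : R) (h : a ^ κ + ∑ l, m l * a ^ (l : ℕ) = 0) :
    (wv a : Fin κ → R) ᵥ* cm m = a • wv a := by
  ext j
  simp only [vecMul, dotProduct, cm, Matrix.of_apply, mul_sub, Finset.sum_sub_distrib, mul_ite,
    mul_one, mul_zero, Pi.smul_apply, smul_eq_mul, wv]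
  by_cases hj : (j : ℕ) + 1 = κ
  · simp only [hj, if_true]
    have h1 : ∑ x : Fin κ, (if (x : ℕ) = κ then a ^ (x : ℕ) else 0) = 0 := by
      refine Finset.sum_eq_zero fun x _ => if_neg ?_
      have := x.2
      omega
    rw [h1, zero_sub, ← pow_succ', hj]
    have h2 : ∑ x : Fin κ, a ^ (x : ℕ) * m x = ∑ x, m x * a ^ (x : ℕ) :=
      Finset.sum_congr rfl fun x _ => mul_comm _ _
    rw [h2]
    linear_combination -h
  · simp only [hj, if_false, Finset.sum_const_zero, sub_zero]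
    have hlt : (j : ℕ) + 1 < κ := by
      have := j.2
      omega
    rw [Finset.sum_eq_single (⟨(j : ℕ) + 1, hlt⟩ : Fin κ)]
    · simp only [if_true]
      ring
    · intro b _ hb
      refine if_neg fun h => hb ?_
      ext
      exact h
    · intro h
      exact absurd (Finset.mem_univ _) h

theorem vecMul_pow_of {M : Matrix (Fin κ) (Fin κ) R} {w : Fin κ → R} {a : R}
    (h : w ᵥ* M = a • w) (n : ℕ) : w ᵥ* M ^ n = a ^ n • w := by
  induction n with
  | zero => rw [pow_zero, Matrix.vecMul_one, pow_zero, one_smul]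
  | succ n ih =>
    rw [pow_succ, ← Matrix.vecMul_vecMul, ih, Matrix.smul_vecMul, h, smul_smul, pow_succ]

theorem vecMul_mx (m v : Fin κ → R) (a : R) (h : a ^ κ + ∑ l, m l * a ^ (l : ℕ) = 0) :
    (wv a : Fin κ → R) ᵥ* mx m v = (∑ l, v l * a ^ (l : ℕ)) • wv a := by
  rw [mx, Matrix.vecMul_sum, Finset.sum_smul]
  refine Finset.sum_congr rfl fun l _ => ?_
  rw [Matrix.vecMul_smul, vecMul_pow_of (vecMul_cm m a h), smul_smul]

theorem vecMul_mx_pow (m v : Fin κ → R) (a : R) (h : a ^ κ + ∑ l, m l * a ^ (l : ℕ) = 0) (n : ℕ) :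
    (wv a : Fin κ → R) ᵥ* mx m v ^ n = (∑ l, v l * a ^ (l : ℕ)) ^ n • wv a :=
  vecMul_pow_of (vecMul_mx m v a h) n

/-- the first column of a power -/
theorem col_pow (hκ : 0 < κ) (m v : Fin κ → R) (a : R)
    (h : a ^ κ + ∑ l, m l * a ^ (l : ℕ) = 0) (n : ℕ) :
    ∑ l : Fin κ, (mx m v ^ n) l ⟨0, hκ⟩ * a ^ (l : ℕ) = (∑ l, v l * a ^ (l : ℕ)) ^ n := by
  have h1 := congrFun (vecMul_mx_pow m v a h n) ⟨0, hκ⟩
  simp only [vecMul, dotProduct, Pi.smul_apply, smul_eq_mul, wv, pow_zero, mul_one] at h1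
  rw [← h1]
  exact Finset.sum_congr rfl fun l _ => mul_comm _ _

theorem cm_pow_col (hκ : 0 < κ) (m : Fin κ → R) (n : ℕ) (hn : n < κ) (i : Fin κ) :
    (cm m ^ n) i ⟨0, hκ⟩ = if (i : ℕ) = n then 1 else 0 := by
  induction n generalizing i with
  | zero =>
    rw [pow_zero, Matrix.one_apply]
    refine if_congr ?_ rfl rfl
    rw [Fin.ext_iff]
  | succ n ih =>
    rw [pow_succ', Matrix.mul_apply, Finset.sum_eq_single (⟨n, by omega⟩ : Fin κ)]
    · rw [ih (by omega), if_pos rfl, mul_one, cm, Matrix.of_apply]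
      have hne : ¬ n + 1 = κ := by omega
      simp only [hne, if_false, sub_zero]
    · intro b _ hb
      rw [ih (by omega), if_neg, mul_zero]
      intro h
      exact hb (Fin.ext h)
    · intro h
      exact absurd (Finset.mem_univ _) h

/-- products with a power of the companion matrix, first column -/
theorem mul_cm_pow_col (hκ : 0 < κ) (m : Fin κ → R) (M : Matrix (Fin κ) (Fin κ) R)
    (i l : Fin κ) : (M * cm m ^ (l : ℕ)) i ⟨0, hκ⟩ = M i l := by
  rw [Matrix.mul_apply, Finset.sum_eq_single l]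
  · rw [cm_pow_col hκ m l l.2, if_pos rfl, mul_one]
  · intro b _ hb
    rw [cm_pow_col hκ m l l.2, if_neg, mul_zero]
    intro h
    exact hb (Fin.ext h)
  · intro h
    exact absurd (Finset.mem_univ _) h

theorem commute_mx (m v : Fin κ → R) (n : ℕ) : Commute (mx m v) (cm m ^ n) := by
  rw [mx]
  refine Commute.sum_left _ _ _ fun l _ => ?_
  exact ((Commute.refl (cm m)).pow_pow _ _).smul_left _

/-! ### derivations -/

theorem map_mul_der {𝔸 : Type*} [CommSemiring 𝔸] [Algebra 𝔸 R] (D : Derivation 𝔸 R R) (A B : Matrix (Fin κ) (Fin κ) R) :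
    (A * B).map D = A.map D * B + A * B.map D := by
  ext i j
  simp only [Matrix.map_apply, Matrix.mul_apply, Matrix.add_apply, map_sum, Derivation.leibniz,
    smul_eq_mul, Finset.sum_add_distrib]
  rw [add_comm]
  congr 1
  exact Finset.sum_congr rfl fun k _ => mul_comm _ _

theorem map_pow_der {𝔸 : Type*} [CommSemiring 𝔸] [Algebra 𝔸 R] (D : Derivation 𝔸 R R) (A : Matrix (Fin κ) (Fin κ) R)
    (h : Commute A (A.map D)) (n : ℕ) :
    (A ^ n).map D = n • (A ^ (n - 1) * A.map D) := by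
  induction n with
  | zero =>
    ext i j
    simp only [pow_zero, Matrix.map_apply, zero_smul, Matrix.zero_apply, Matrix.one_apply]
    split_ifs <;> simp
  | succ n ih =>
    rw [pow_succ, map_mul_der, ih, Nat.add_sub_cancel, smul_mul_assoc, mul_assoc, ← h.eq,
      ← mul_assoc]
    rcases Nat.eq_zero_or_pos n with rfl | hn
    · simp
    · have e : A ^ (n - 1) * A = A ^ n := by
        rw [← pow_succ]
        congr 1
        omega
      rw [e, succ_nsmul]

theorem map_pow_zero {𝔸 : Type*} [CommSemiring 𝔸] [Algebra 𝔸 R] (D : Derivation 𝔸 R R) (A : Matrix (Fin κ) (Fin κ) R)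
    (h : A.map D = 0) (n : ℕ) : (A ^ n).map D = 0 := by
  rw [map_pow_der D A (by rw [h]; exact Commute.zero_right _), h, mul_zero, smul_zero]

theorem map_cm_der {𝔸 : Type*} [CommSemiring 𝔸] [Algebra 𝔸 R] (D : Derivation 𝔸 R R) (m : Fin κ → R) (h : ∀ l, D (m l) = 0) :
    (cm m).map D = 0 := by
  ext i j
  simp only [cm, Matrix.map_apply, Matrix.of_apply, map_sub, Matrix.zero_apply]
  split_ifs <;> simp [h]

theorem map_mx_der {𝔸 : Type*} [CommSemiring 𝔸] [Algebra 𝔸 R] (D : Derivation 𝔸 R R) (m v : Fin κ → R) (h : ∀ l, D (m l) = 0)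
    (j : Fin κ) (hv : ∀ l, D (v l) = if l = j then 1 else 0) :
    (mx m v).map D = cm m ^ (j : ℕ) := by
  ext x y
  have h1 : ∀ l : Fin κ, D ((cm m ^ (l : ℕ)) x y) = 0 := by
    intro l
    have := congrFun (congrFun (map_pow_zero D (cm m) (map_cm_der D m h) l) x) y
    simpa using this
  simp only [mx, Matrix.map_apply, Matrix.sum_apply, Matrix.smul_apply, map_sum, smul_eq_mul,
    Derivation.leibniz, h1, mul_zero, zero_add, hv, mul_ite, mul_one]
  rw [Finset.sum_ite_eq' Finset.univ j, if_pos (Finset.mem_univ _)]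

/-- the derivative of the first column of a power -/
theorem der_col (hκ : 0 < κ) {𝔸 : Type*} [CommSemiring 𝔸] [Algebra 𝔸 R] (D : Derivation 𝔸 R R) (m v : Fin κ → R) (h : ∀ l, D (m l) = 0)
    (j : Fin κ) (hv : ∀ l, D (v l) = if l = j then 1 else 0) (r : ℕ) (i : Fin κ) :
    D ((mx m v ^ r) i ⟨0, hκ⟩) = r * (mx m v ^ (r - 1)) i j := by
  have h1 := map_mx_der D m v h j hv
  have h2 := map_pow_der D (mx m v) (by rw [h1]; exact commute_mx m v j) r
  have h3 := congrFun (congrFun h2 i) ⟨0, hκ⟩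
  rw [Matrix.map_apply] at h3
  rw [h3, h1, Matrix.smul_apply, mul_cm_pow_col, nsmul_eq_mul]

end mat

/-! ### the determinant -/

/-- the matrix of a nonzero element is nonsingular -/
theorem det_mx_ne {κ : ℕ} (m v : Fin κ → ℤ) (a : ℂ)
    (h : a ^ κ + ∑ l, (m l : ℂ) * a ^ (l : ℕ) = 0)
    (hlin : ∀ c : Fin κ → ℤ, ∑ l, (c l : ℂ) * a ^ (l : ℕ) = 0 → c = 0) (hv : v ≠ 0) :
    (mx m v).det ≠ 0 := by
  intro h0
  obtain ⟨u, hu, hu0⟩ := Matrix.exists_mulVec_eq_zero_iff.2 h0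
  have h1 := vecMul_mx (fun l => (m l : ℂ)) (fun l => (v l : ℂ)) a h
  have h2 : (mx (fun l => (m l : ℂ)) fun l => (v l : ℂ)) *ᵥ (fun l => (u l : ℂ)) = 0 := by
    have e := mx_map (Int.castRingHom ℂ) m v
    simp only [eq_intCast] at e
    rw [← e]
    ext i
    have := congrFun hu0 i
    simp only [mulVec, dotProduct, Pi.zero_apply] at this ⊢
    simp only [RingHom.mapMatrix_apply, Matrix.map_apply, eq_intCast]
    exact_mod_cast this
  have h3 : ((wv a : Fin κ → ℂ) ᵥ* mx (fun l => (m l : ℂ)) fun l => (v l : ℂ)) ⬝ᵥ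
      (fun l => (u l : ℂ)) = 0 := by
    rw [← Matrix.dotProduct_mulVec, h2, dotProduct_zero]
  rw [h1, smul_dotProduct, smul_eq_mul, mul_eq_zero] at h3
  rcases h3 with h3 | h3
  · exact hv (hlin v h3)
  · refine hu (hlin u ?_)
    rw [← h3]
    simp only [dotProduct, wv]
    exact Finset.sum_congr rfl fun l _ => mul_comm _ _

/-- the determinant of a block triangular matrix -/
theorem det_block {N κ : ℕ} (M : Matrix (Option (Fin N ⊕ Fin κ)) (Option (Fin N ⊕ Fin κ)) ℤ)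
    (b : ℤ) (h0 : ∀ x, M none (some x) = 0)
    (h1 : ∀ i j, M (some (Sum.inl i)) (some (Sum.inl j)) = if i = j then b else 0)
    (h2 : ∀ i j, M (some (Sum.inl i)) (some (Sum.inr j)) = 0) :
    M.det = M none none * b ^ N *
      (Matrix.of fun i j => M (some (Sum.inr i)) (some (Sum.inr j))).det := by
  set e := Equiv.optionEquivSumPUnit.{0} (Fin N ⊕ Fin κ) with he
  have hr : M.det = (Matrix.reindex e e M).det := (Matrix.det_reindex_self e M).symm
  set A : Matrix (Fin N ⊕ Fin κ) (Fin N ⊕ Fin κ) ℤ := Matrix.of fun i j => M (some i) (some j)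
    with hA
  have hM : Matrix.reindex e e M = Matrix.fromBlocks A
      (Matrix.of fun i (_ : PUnit) => M (some i) none) 0
      (Matrix.of fun (_ _ : PUnit) => M none none) := by
    ext i j
    rcases i with i | i <;> rcases j with j | j
    · simp [he, hA, Matrix.reindex_apply]
    · simp [he, hA, Matrix.reindex_apply]
    · simp [he, hA, Matrix.reindex_apply, h0]
    · simp [he, hA, Matrix.reindex_apply]
  have hA2 : A = Matrix.fromBlocks (Matrix.diagonal fun _ : Fin N => b) 0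
      (Matrix.of fun i j => M (some (Sum.inr i)) (some (Sum.inl j)))
      (Matrix.of fun i j => M (some (Sum.inr i)) (some (Sum.inr j))) := by
    ext i j
    rcases i with i | i <;> rcases j with j | j
    · simp [hA, h1, Matrix.diagonal_apply]
    · simp [hA, h2]
    · simp [hA]
    · simp [hA]
  have hD : (Matrix.of fun (_ _ : PUnit.{1}) => M none none).det = M none none := by
    rw [Matrix.det_unique, Matrix.of_apply]
  rw [hr, hM, Matrix.det_fromBlocks_zero₂₁, hA2, Matrix.det_fromBlocks_zero₁₂, hD,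
    Matrix.det_diagonal, Finset.prod_const, Finset.card_univ, Fintype.card_fin]
  ring

/-! ### sizes -/

/-- the sum of the absolute values of the entries -/
def nm {κ : ℕ} (M : Matrix (Fin κ) (Fin κ) ℤ) : ℤ := ∑ i, ∑ j, |M i j|

theorem nm_nonneg {κ : ℕ} (M : Matrix (Fin κ) (Fin κ) ℤ) : 0 ≤ nm M :=
  Finset.sum_nonneg fun _ _ => Finset.sum_nonneg fun _ _ => abs_nonneg _

theorem le_nm {κ : ℕ} (M : Matrix (Fin κ) (Fin κ) ℤ) (i j : Fin κ) : |M i j| ≤ nm M :=
  (Finset.single_le_sum (f := fun j => |M i j|) (fun _ _ => abs_nonneg _)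
    (Finset.mem_univ j)).trans
  (Finset.single_le_sum (f := fun i => ∑ j, |M i j|)
    (fun _ _ => Finset.sum_nonneg fun _ _ => abs_nonneg _) (Finset.mem_univ i))

theorem nm_mul {κ : ℕ} (A B : Matrix (Fin κ) (Fin κ) ℤ) : nm (A * B) ≤ nm A * nm B := by
  have h1 : nm (A * B) ≤ ∑ i, ∑ j, ∑ k, |A i k| * |B k j| := by
    refine Finset.sum_le_sum fun i _ => Finset.sum_le_sum fun j _ => ?_
    rw [Matrix.mul_apply]
    refine (Finset.abs_sum_le_sum_abs _ _).trans (le_of_eq ?_)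
    exact Finset.sum_congr rfl fun k _ => abs_mul _ _
  refine h1.trans ?_
  have h2 : ∀ i, ∑ j, ∑ k, |A i k| * |B k j| = ∑ k, |A i k| * ∑ j, |B k j| := by
    intro i
    rw [Finset.sum_comm]
    exact Finset.sum_congr rfl fun k _ => by rw [Finset.mul_sum]
  rw [nm, Finset.sum_mul]
  refine Finset.sum_le_sum fun i _ => ?_
  rw [h2, Finset.sum_mul]
  refine Finset.sum_le_sum fun k _ => ?_
  refine mul_le_mul_of_nonneg_left ?_ (abs_nonneg _)
  exact Finset.single_le_sum (f := fun k => ∑ j, |B k j|)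
    (fun _ _ => Finset.sum_nonneg fun _ _ => abs_nonneg _) (Finset.mem_univ k)

theorem nm_one {κ : ℕ} : nm (1 : Matrix (Fin κ) (Fin κ) ℤ) = κ := by
  have : ∀ i : Fin κ, ∑ j, |(1 : Matrix (Fin κ) (Fin κ) ℤ) i j| = 1 := by
    intro i
    rw [Finset.sum_eq_single i]
    · simp
    · intro j _ hj
      rw [Matrix.one_apply_ne (Ne.symm hj), abs_zero]
    · intro h
      exact absurd (Finset.mem_univ _) h
  rw [nm, Finset.sum_congr rfl fun i _ => this i]
  simp

theorem nm_pow {κ : ℕ} (A : Matrix (Fin κ) (Fin κ) ℤ) (n : ℕ) : nm (A ^ n) ≤ κ * nm A ^ n := by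
  induction n with
  | zero => rw [pow_zero, pow_zero, mul_one, nm_one]
  | succ n ih =>
    rw [pow_succ]
    refine (nm_mul _ _).trans ?_
    calc nm (A ^ n) * nm A ≤ (κ * nm A ^ n) * nm A :=
          mul_le_mul_of_nonneg_right ih (nm_nonneg _)
      _ = κ * nm A ^ (n + 1) := by rw [pow_succ]; ring

theorem nm_add {κ : ℕ} (A B : Matrix (Fin κ) (Fin κ) ℤ) : nm (A + B) ≤ nm A + nm B := by
  rw [nm, nm, nm, ← Finset.sum_add_distrib]
  refine Finset.sum_le_sum fun i _ => ?_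
  rw [← Finset.sum_add_distrib]
  exact Finset.sum_le_sum fun j _ => abs_add_le _ _

theorem nm_sum {κ : ℕ} {ι : Type*} (s : Finset ι) (f : ι → Matrix (Fin κ) (Fin κ) ℤ) :
    nm (∑ x ∈ s, f x) ≤ ∑ x ∈ s, nm (f x) := by
  classical
  induction s using Finset.induction_on with
  | empty => simp [nm]
  | insert a s ha ih =>
    rw [Finset.sum_insert ha, Finset.sum_insert ha]
    exact (nm_add _ _).trans (by linarith)

theorem nm_smul {κ : ℕ} (c : ℤ) (A : Matrix (Fin κ) (Fin κ) ℤ) : nm (c • A) = |c| * nm A := by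
  rw [nm, nm, Finset.mul_sum]
  refine Finset.sum_congr rfl fun i _ => ?_
  rw [Finset.mul_sum]
  refine Finset.sum_congr rfl fun j _ => ?_
  rw [Matrix.smul_apply, smul_eq_mul, abs_mul]

/-- the exponent in the bounds -/
def c1 (κ : ℕ) : ℕ := 2 * κ * κ + 4 * κ + 1

theorem nm_cm {κ B : ℕ} (m : Fin κ → ℤ) (hm : ∀ l, |m l| ≤ 2 ^ (B + 1)) :
    nm (cm m) ≤ 2 ^ (2 * κ + (B + 2)) := by
  have h1 : ∀ i j, |cm m i j| ≤ 2 ^ (B + 2) := by
    intro i j
    rw [cm, Matrix.of_apply]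
    refine (abs_sub _ _).trans ?_
    have e1 : |(if (i : ℕ) = (j : ℕ) + 1 then (1 : ℤ) else 0)| ≤ 2 ^ (B + 1) := by
      split_ifs
      · rw [abs_one]
        exact one_le_pow₀ (by norm_num)
      · rw [abs_zero]
        positivity
    have e2 : |(if (j : ℕ) + 1 = κ then m i else 0)| ≤ 2 ^ (B + 1) := by
      split_ifs
      · exact hm i
      · rw [abs_zero]
        positivity
    calc _ ≤ (2 : ℤ) ^ (B + 1) + 2 ^ (B + 1) := add_le_add e1 e2
      _ = 2 ^ (B + 2) := by ring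
  have h2 : nm (cm m) ≤ ∑ _i : Fin κ, ∑ _j : Fin κ, (2 : ℤ) ^ (B + 2) :=
    Finset.sum_le_sum fun i _ => Finset.sum_le_sum fun j _ => h1 i j
  refine h2.trans ?_
  rw [Finset.sum_const, Finset.sum_const, Finset.card_univ, Fintype.card_fin, nsmul_eq_mul,
    nsmul_eq_mul, pow_add (2 : ℤ) (2 * κ)]
  have hk : (κ : ℤ) ≤ 2 ^ κ := by exact_mod_cast Nat.lt_two_pow_self.le
  calc (κ : ℤ) * (κ * 2 ^ (B + 2)) ≤ 2 ^ κ * (2 ^ κ * 2 ^ (B + 2)) := by gcongr
    _ = 2 ^ (2 * κ) * 2 ^ (B + 2) := by rw [two_mul, pow_add]; ring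

theorem nm_mx {κ B : ℕ} (m v : Fin κ → ℤ) (hm : ∀ l, |m l| ≤ 2 ^ (B + 1))
    (hv : ∀ l, |v l| ≤ 2 ^ B) : nm (mx m v) ≤ 2 ^ (c1 κ * (B + 1)) := by
  rw [mx]
  refine (nm_sum _ _).trans ?_
  have hk : (κ : ℤ) ≤ 2 ^ κ := by exact_mod_cast Nat.lt_two_pow_self.le
  have h1 : ∀ l : Fin κ, nm (v l • cm m ^ (l : ℕ)) ≤
      2 ^ (B + κ + (2 * κ + (B + 2)) * κ) := by
    intro l
    rw [nm_smul]
    have e1 : nm (cm m ^ (l : ℕ)) ≤ 2 ^ (κ + (2 * κ + (B + 2)) * κ) := by
      refine (nm_pow _ _).trans ?_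
      calc (κ : ℤ) * nm (cm m) ^ (l : ℕ) ≤ 2 ^ κ * (2 ^ (2 * κ + (B + 2))) ^ (l : ℕ) := by
            have := nm_cm m hm
            have h0 := nm_nonneg (cm m)
            gcongr
        _ ≤ 2 ^ κ * (2 ^ (2 * κ + (B + 2))) ^ κ := by
            have : (l : ℕ) ≤ κ := l.2.le
            have h1 : (1 : ℤ) ≤ 2 ^ (2 * κ + (B + 2)) := one_le_pow₀ (by norm_num)
            gcongr
        _ = _ := by rw [← pow_mul, ← pow_add]
    calc |v l| * nm (cm m ^ (l : ℕ)) ≤ 2 ^ B * 2 ^ (κ + (2 * κ + (B + 2)) * κ) :=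
          mul_le_mul (hv l) e1 (nm_nonneg _) (by positivity)
      _ = _ := by rw [← pow_add, add_assoc]
  refine (Finset.sum_le_sum fun l _ => h1 l).trans ?_
  rw [Finset.sum_const, Finset.card_univ, Fintype.card_fin, nsmul_eq_mul]
  calc (κ : ℤ) * 2 ^ (B + κ + (2 * κ + (B + 2)) * κ) ≤
        2 ^ κ * 2 ^ (B + κ + (2 * κ + (B + 2)) * κ) := by gcongr
    _ = 2 ^ (κ + (B + κ + (2 * κ + (B + 2)) * κ)) := by rw [← pow_add]
    _ ≤ 2 ^ (c1 κ * (B + 1)) := by
        apply pow_le_pow_right₀ (by norm_num)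
        rw [c1]
        nlinarith [Nat.zero_le (κ * κ * B), Nat.zero_le (κ * B)]

theorem det_mx_le {κ B : ℕ} (m v : Fin κ → ℤ) (hm : ∀ l, |m l| ≤ 2 ^ (B + 1))
    (hv : ∀ l, |v l| ≤ 2 ^ B) : |(mx m v).det| ≤ 2 ^ ((κ * κ + c1 κ * κ) * (B + 1)) := by
  have h1 := Matrix.det_le (A := mx m v) (abv := AbsoluteValue.abs)
    (x := (2 : ℤ) ^ (c1 κ * (B + 1))) (fun i j => (le_nm _ i j).trans (nm_mx m v hm hv))
  rw [Fintype.card_fin] at h1
  refine (show |(mx m v).det| ≤ _ from h1).trans ?_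
  rw [nsmul_eq_mul]
  have h2 : ((κ.factorial : ℕ) : ℤ) ≤ 2 ^ (κ * κ * (B + 1)) := by
    have e1 : κ.factorial ≤ κ ^ κ := Nat.factorial_le_pow κ
    have e2 : κ ^ κ ≤ (2 ^ κ) ^ κ := Nat.pow_le_pow_left Nat.lt_two_pow_self.le _
    have e3 : (2 ^ κ) ^ κ ≤ 2 ^ (κ * κ * (B + 1)) := by
      rw [← pow_mul]
      exact Nat.pow_le_pow_right (by norm_num) (Nat.le_mul_of_pos_right _ (by omega))
    exact_mod_cast e1.trans (e2.trans e3)
  calc ((κ.factorial : ℕ) : ℤ) * ((2 : ℤ) ^ (c1 κ * (B + 1))) ^ κ ≤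
        2 ^ (κ * κ * (B + 1)) * ((2 : ℤ) ^ (c1 κ * (B + 1))) ^ κ := by gcongr
    _ = _ := by
        rw [← pow_mul, ← pow_add]
        congr 1
        ring

end Pool.Agent.N776.HC
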