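import Pool.Agent.N741.HB.Stm3
import Pool.Agent.N776.HC.Mat

/-!
# The determinant method for algebraic integers

Project HC of helper741, part HC/2 (`S_relF` from `S_detV`), by helper776.
-/

set_option autoImplicit false

namespace Pool.Agent.N776.HC

open Finset MvPolynomial Matrix Pool.Agent.N741.HC

/-- the unknowns of exponential size: `Θ`, the coordinates of `t` and the coordinates of `z` -/
abbrev Tt (N κ : ℕ) : Type := Option (Fin N ⊕ Fin κ)

/-- all variables -/
abbrev Sg (d N κ : ℕ) : Type := Fin d ⊕ Tt N κ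

/-- the places of the variables of `H` -/
def ph {d : ℕ} (N κ : ℕ) : Option (Fin d) → Sg d N κ := fun o => o.elim (Sum.inr none) Sum.inl

/-- the place of a coordinate of `t` -/
def px (d : ℕ) {N : ℕ} (κ : ℕ) (j : Fin N) : Sg d N κ := Sum.inr (some (Sum.inl j))

/-- the place of a coordinate of `z` -/
def pz (d N : ℕ) {κ : ℕ} (l : Fin κ) : Sg d N κ := Sum.inr (some (Sum.inr l))

theorem ph_inj {d N κ : ℕ} : Function.Injective (ph (d := d) N κ) := by
  intro x y h
  rcases x with _ | x <;> rcases y with _ | y <;> simp [ph] at h ⊢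
  exact h

theorem px_inj {d N κ : ℕ} : Function.Injective (px d (N := N) κ) := by
  intro x y h
  simpa [px] using h

/-- the polynomials `X_(μ l) - X_o` -/
noncomputable def mR (d : ℕ) {N κ : ℕ} (o : Fin N) (μ : Fin κ → Fin N) :
    Fin κ → MvPolynomial (Sg d N κ) ℤ := fun l => X (px d κ (μ l)) - X (px d κ o)

/-- the polynomials `ζ_l` -/
noncomputable def vR (d N κ : ℕ) : Fin κ → MvPolynomial (Sg d N κ) ℤ := fun l => X (pz d N l)

/-- the equations -/
noncomputable def eqs {d N κ : ℕ} (hκ : 0 < κ) (o : Fin N) (μ : Fin κ → Fin N)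
    (H : MvPolynomial (Option (Fin d)) ℤ) (b0 : MvPolynomial (Fin d) ℤ)
    (b : Fin N → MvPolynomial (Option (Fin d)) ℤ) (F : Fin κ → MvPolynomial (Fin N) ℤ) (r : ℕ) :
    Tt N κ → MvPolynomial (Sg d N κ) ℤ
  | none => rename (ph N κ) H
  | some (Sum.inl j) => rename Sum.inl b0 * X (px d κ j) - rename (ph N κ) (b j)
  | some (Sum.inr l) => (mx (mR d o μ) (vR d N κ) ^ r) l ⟨0, hκ⟩ - rename (px d κ) (F l)

/-- the values of the unknowns -/
def zt {N κ : ℕ} (θ : ℤ) (t : Fin N → ℤ) (ζ : Fin κ → ℤ) : Tt N κ → ℤ :=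
  fun o => o.elim θ (Sum.elim t ζ)

/-! ### values -/

section val

variable {d N κ : ℕ} (s : Fin d → ℤ) (θ : ℤ) (t : Fin N → ℤ) (ζ : Fin κ → ℤ)

theorem ev_ph (p : MvPolynomial (Option (Fin d)) ℤ) :
    eval (Sum.elim s (zt θ t ζ)) (rename (ph N κ) p) = eval (fun o => o.elim θ s) p := by
  rw [eval_rename]
  congr 2
  funext x
  rcases x with _ | x <;> rfl

theorem ev_inl (p : MvPolynomial (Fin d) ℤ) :
    eval (Sum.elim s (zt θ t ζ)) (rename (Sum.inl : Fin d → Sg d N κ) p) = eval s p := by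
  rw [eval_rename]
  rfl

theorem ev_px (p : MvPolynomial (Fin N) ℤ) :
    eval (Sum.elim s (zt θ t ζ)) (rename (px d κ) p) = eval t p := by
  rw [eval_rename]
  rfl

theorem ev_mx (o : Fin N) (μ : Fin κ → Fin N) (n : ℕ) (i j : Fin κ) :
    eval (Sum.elim s (zt θ t ζ)) ((mx (mR d o μ) (vR d N κ) ^ n) i j) =
      (mx (cv o μ t) ζ ^ n) i j := by
  have h1 := mx_map (eval (Sum.elim s (zt θ t ζ))) (mR d o μ) (vR d N κ)
  have e1 : (fun l => eval (Sum.elim s (zt θ t ζ)) (mR d o μ l)) = cv o μ t := by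
    funext l
    rw [mR, map_sub, eval_X, eval_X]
    rfl
  have e2 : (fun l => eval (Sum.elim s (zt θ t ζ)) (vR d N κ l)) = ζ := by
    funext l
    rw [vR, eval_X]
    rfl
  rw [e1, e2] at h1
  rw [← h1, ← map_pow]
  rfl

end val

/-! ### derivatives -/

theorem pd_ren {σ τ : Type*} [DecidableEq τ] (f : σ → τ) (i : τ) (hi : ∀ x, f x ≠ i)
    (p : MvPolynomial σ ℤ) : pderiv i (rename f p) = 0 := by
  apply pderiv_eq_zero_of_notMem_vars
  intro h
  obtain ⟨x, -, hx⟩ := Finset.mem_image.1 (vars_rename f p h)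
  exact hi x hx

section der

variable {d N κ : ℕ} (hκ : 0 < κ) (o : Fin N) (μ : Fin κ → Fin N)
    (H : MvPolynomial (Option (Fin d)) ℤ) (b0 : MvPolynomial (Fin d) ℤ)
    (b : Fin N → MvPolynomial (Option (Fin d)) ℤ) (F : Fin κ → MvPolynomial (Fin N) ℤ) (r : ℕ)

theorem der_00 : pderiv (Sum.inr none) (eqs hκ o μ H b0 b F r none) =
    rename (ph N κ) (pderiv none H) := by
  rw [eqs]
  exact pderiv_rename ph_inj none H

theorem der_0s (x : Fin N ⊕ Fin κ) :
    pderiv (Sum.inr (some x)) (eqs hκ o μ H b0 b F r none) = 0 := by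
  rw [eqs]
  refine pd_ren _ _ (fun y => ?_) _
  rcases y with _ | y <;> simp [ph]

theorem der_11 (i j : Fin N) :
    pderiv (Sum.inr (some (Sum.inl j))) (eqs hκ o μ H b0 b F r (some (Sum.inl i))) =
      if i = j then rename Sum.inl b0 else 0 := by
  rw [eqs, map_sub, Derivation.leibniz, pd_ren (ph N κ) _ (fun y => ?_),
    pd_ren (Sum.inl : Fin d → Sg d N κ) _ (fun y => ?_), smul_zero, add_zero, sub_zero, pderiv_X,
    smul_eq_mul]
  · by_cases h : i = j
    · rw [h, px, Pi.single_eq_same, mul_one, if_pos rfl]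
    · rw [px, Pi.single_eq_of_ne (by simpa using h), mul_zero, if_neg h]
  · simp
  · rcases y with _ | y <;> simp [ph]

theorem der_12 (i : Fin N) (j : Fin κ) :
    pderiv (Sum.inr (some (Sum.inr j))) (eqs hκ o μ H b0 b F r (some (Sum.inl i))) = 0 := by
  rw [eqs, map_sub, Derivation.leibniz, pd_ren (ph N κ) _ (fun y => ?_),
    pd_ren (Sum.inl : Fin d → Sg d N κ) _ (fun y => ?_), smul_zero, add_zero, sub_zero, pderiv_X,
    smul_eq_mul]
  · rw [px, Pi.single_eq_of_ne (by simp), mul_zero]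
  · simp
  · rcases y with _ | y <;> simp [ph]

theorem der_22 (i j : Fin κ) :
    pderiv (Sum.inr (some (Sum.inr j))) (eqs hκ o μ H b0 b F r (some (Sum.inr i))) =
      r * (mx (mR d o μ) (vR d N κ) ^ (r - 1)) i j := by
  rw [eqs, map_sub, pd_ren (px d κ) _ (fun y => by simp [px]), sub_zero]
  refine der_col hκ (pderiv (Sum.inr (some (Sum.inr j)))) (mR d o μ) (vR d N κ) (fun l => ?_) j
    (fun l => ?_) r i
  · rw [mR, map_sub, pderiv_X, pderiv_X, px, px, Pi.single_eq_of_ne (by simp),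
      Pi.single_eq_of_ne (by simp), sub_zero]
  · rw [vR, pderiv_X, pz]
    by_cases h : l = j
    · rw [h, Pi.single_eq_same, if_pos rfl]
    · rw [Pi.single_eq_of_ne (by simpa using h), if_neg h]

end der

/-- the Jacobian determinant -/
theorem det_val {d N κ : ℕ} (hκ : 0 < κ) (o : Fin N) (μ : Fin κ → Fin N)
    (H : MvPolynomial (Option (Fin d)) ℤ) (b0 : MvPolynomial (Fin d) ℤ)
    (b : Fin N → MvPolynomial (Option (Fin d)) ℤ) (F : Fin κ → MvPolynomial (Fin N) ℤ) (r : ℕ)
    (s : Fin d → ℤ) (θ : ℤ) (t : Fin N → ℤ) (ζ : Fin κ → ℤ) :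
    (Matrix.of fun i j => eval (Sum.elim s (zt θ t ζ))
      (pderiv (Sum.inr j) (eqs hκ o μ H b0 b F r i))).det =
      eval (fun o => o.elim θ s) (pderiv none H) * eval s b0 ^ N *
        ((r : ℤ) ^ κ * (mx (cv o μ t) ζ).det ^ (r - 1)) := by
  rw [det_block _ (eval s b0)]
  · rw [Matrix.of_apply, der_00, ev_ph]
    congr 1
    have e : (Matrix.of fun i j => (Matrix.of fun i j => eval (Sum.elim s (zt θ t ζ))
        (pderiv (Sum.inr j) (eqs hκ o μ H b0 b F r i))) (some (Sum.inr i)) (some (Sum.inr j))) =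
        (r : ℤ) • (mx (cv o μ t) ζ) ^ (r - 1) := by
      ext i j
      rw [Matrix.of_apply, Matrix.of_apply, der_22, map_mul, ev_mx, map_natCast]
      simp
    rw [e, Matrix.det_smul, Matrix.det_pow, Fintype.card_fin]
  · intro x
    rw [Matrix.of_apply, der_0s, map_zero]
  · intro i j
    rw [Matrix.of_apply, der_11]
    split_ifs
    · rw [ev_inl]
    · rw [map_zero]
  · intro i j
    rw [Matrix.of_apply, der_12, map_zero]

/-- **HC/2.** -/
theorem relF (h : S_detV) : S_relF := by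
  intro d k κ N hκ1
  obtain ⟨I, D, X₀, hI, h⟩ := h d k κ
  have hκ : 0 < κ := hκ1
  refine ⟨I, D, X₀, (N + κ + (κ * κ + c1 κ * κ) + 2) + (κ + c1 κ * I), hI, ?_⟩
  intro X Y W B r hX hY hYX hW hr hIX hYB hCX hCW ι o μ H b0 b F T θ a ζ hT
  have hcv : ∀ t ∈ T, ∀ l, |cv o μ t l| ≤ 2 ^ (B + 1) := by
    intro t ht l
    obtain ⟨h1, -⟩ := hT t ht
    have hYB' : (Y : ℤ) ≤ 2 ^ B := by exact_mod_cast hYB
    rw [cv]
    calc |t (μ l) - t o| ≤ |t (μ l)| + |t o| := abs_sub _ _
      _ ≤ 2 ^ B + 2 ^ B := add_le_add ((h1 _).trans hYB') ((h1 _).trans hYB')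
      _ = 2 ^ (B + 1) := by ring
  have hcol : ∀ t ∈ T, ∀ n, vl (a t) (fun l => (mx (cv o μ t) (ζ t) ^ n) l ⟨0, hκ⟩) =
      vl (a t) (ζ t) ^ n := by
    intro t ht n
    obtain ⟨-, -, -, h1, -⟩ := hT t ht
    have e := col_pow hκ (fun l => ((cv o μ t l : ℤ) : ℂ)) (fun l => ((ζ t l : ℤ) : ℂ)) (a t) h1 n
    rw [vl, vl, ← e]
    refine Finset.sum_congr rfl fun l _ => ?_
    congr 1
    have e1 := mx_map (Int.castRingHom ℂ) (cv o μ t) (ζ t)
    simp only [eq_intCast] at e1
    rw [← e1, ← map_pow, RingHom.mapMatrix_apply, Matrix.map_apply, eq_intCast]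
  obtain ⟨T', hT', hcard, c, hc0, hc1, hc2⟩ := h X Y W hX hY hYX hW hIX (Tt N κ)
    (eqs hκ o μ H b0 b F r)
    (fun (j : Fin I) l => (mx (mR d o μ) (vR d N κ) ^ (j : ℕ)) l ⟨0, hκ⟩) (Fin N → ℤ) T
    (fun t q => t (ι q)) (fun t => zt (θ t) t (ζ t)) (by
      intro t ht
      obtain ⟨h1, h2, h3, h4, h5, h6, h7, h8, h9, h10, h11, h12⟩ := hT t ht
      refine ⟨fun i => ?_, fun q => h1 _, fun j l => ?_, ?_, ?_⟩
      · rcases i with _ | i | l
        · rw [eqs, ev_ph, h7]
        · rw [eqs, map_sub, map_mul, ev_inl, ev_ph, eval_X, ← h8 i]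
          exact sub_self _
        · rw [eqs, map_sub, ev_mx, ev_px, sub_eq_zero]
          have e1 := hcol t ht r
          rw [h6] at e1
          have e2 : vl (a t) (fun l => (mx (cv o μ t) (ζ t) ^ r) l ⟨0, hκ⟩ - eval t (F l)) = 0 := by
            have : vl (a t) (fun l => (mx (cv o μ t) (ζ t) ^ r) l ⟨0, hκ⟩ - eval t (F l)) =
                vl (a t) (fun l => (mx (cv o μ t) (ζ t) ^ r) l ⟨0, hκ⟩) -
                  vl (a t) (fun l => eval t (F l)) := by
              simp only [vl, ← Finset.sum_sub_distrib]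
              refine Finset.sum_congr rfl fun l _ => ?_
              push_cast
              ring
            rw [this, e1, sub_self]
          have e3 := congrFun (h5 _ e2) l
          simp only [Pi.zero_apply] at e3
          linarith
      · rw [ev_mx]
        refine (le_nm _ _ _).trans ((nm_pow _ _).trans ?_)
        have g1 := nm_mx (cv o μ t) (ζ t) (hcv t ht) h2
        have g0 := nm_nonneg (mx (cv o μ t) (ζ t))
        have hk : (κ : ℤ) ≤ 2 ^ κ := by exact_mod_cast Nat.lt_two_pow_self.le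
        have hCW' : (2 : ℤ) ^ ((N + κ + (κ * κ + c1 κ * κ) + 2 + (κ + c1 κ * I)) * (B + 1)) ≤
            (X : ℤ) ^ W := by exact_mod_cast hCW
        refine le_trans ?_ hCW'
        calc (κ : ℤ) * nm (mx (cv o μ t) (ζ t)) ^ (j : ℕ) ≤
              2 ^ κ * (2 ^ (c1 κ * (B + 1))) ^ (j : ℕ) := by gcongr
          _ = 2 ^ (κ + c1 κ * (B + 1) * j) := by rw [← pow_mul, ← pow_add]
          _ ≤ _ := by
            apply pow_le_pow_right₀ (by norm_num)
            have hj : (j : ℕ) ≤ I := j.2.le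
            have e1 : c1 κ * (B + 1) * j ≤ c1 κ * (B + 1) * I := Nat.mul_le_mul_left _ hj
            have e2 : κ ≤ κ * (B + 1) := Nat.le_mul_of_pos_right _ (by omega)
            calc κ + c1 κ * (B + 1) * j ≤ κ * (B + 1) + c1 κ * (B + 1) * I := by omega
              _ = (κ + c1 κ * I) * (B + 1) := by ring
              _ ≤ _ := Nat.mul_le_mul_right _ (by omega)
      · rw [det_val]
        have g1 := det_mx_ne (cv o μ t) (ζ t) (a t) h4 h5 h3
        have g2 : (r : ℤ) ≠ 0 := by exact_mod_cast (by omega : r ≠ 0)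
        exact mul_ne_zero (mul_ne_zero h9 (pow_ne_zero _ h11))
          (mul_ne_zero (pow_ne_zero _ g2) (pow_ne_zero _ g1))
      · rw [det_val, abs_mul, abs_mul, abs_pow, abs_mul, abs_pow, abs_pow, Nat.abs_cast]
        have g1 := det_mx_le (cv o μ t) (ζ t) (hcv t ht) h2
        have hr2 : (r : ℤ) ≤ 2 ^ r := by exact_mod_cast Nat.lt_two_pow_self.le
        have g3 : (2 : ℤ) ^ B * (2 ^ B) ^ N * ((2 ^ r) ^ κ *
            (2 ^ ((κ * κ + c1 κ * κ) * (B + 1))) ^ (r - 1)) < 2 ^ X := by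
          have e : (2 : ℤ) ^ B * (2 ^ B) ^ N * ((2 ^ r) ^ κ *
              (2 ^ ((κ * κ + c1 κ * κ) * (B + 1))) ^ (r - 1)) =
              2 ^ (B + B * N + (r * κ + (κ * κ + c1 κ * κ) * (B + 1) * (r - 1))) := by
            simp only [← pow_mul, ← pow_add]
          rw [e]
          apply pow_lt_pow_right₀ (by norm_num)
          refine lt_of_lt_of_le ?_ hCX
          generalize κ * κ + c1 κ * κ = E
          generalize c1 κ * I = E'
          have f1 : E * (B + 1) * (r - 1) ≤ E * (B + 1) * (r + 1) :=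
            Nat.mul_le_mul_left _ (by omega)
          have f2 : (N + κ + E + 2 + (κ + E')) * (B + 1) * (r + 1) =
              E * (B + 1) * (r + 1) + (N * (B + 1) * (r + 1) + κ * (B + 1) * (r + 1) +
                2 * (B + 1) * (r + 1) + (κ + E') * (B + 1) * (r + 1)) := by ring
          rw [f2]
          have f3 : B * N ≤ N * (B + 1) * (r + 1) := by
            calc B * N ≤ N * (B + 1) * 1 := by nlinarith
              _ ≤ _ := Nat.mul_le_mul_left _ (by omega)
          have f4 : r * κ ≤ κ * (B + 1) * (r + 1) := by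
            calc r * κ ≤ κ * 1 * (r + 1) := by nlinarith
              _ ≤ κ * (B + 1) * (r + 1) := by gcongr; omega
          have f5 : B < 2 * (B + 1) * (r + 1) := by
            calc B < 2 * (B + 1) * 1 := by omega
              _ ≤ _ := Nat.mul_le_mul_left _ (by omega)
          omega
        refine lt_of_le_of_lt ?_ g3
        gcongr)
  refine ⟨T', hT', ?_, c, hc0, hc1, fun t ht => ?_⟩
  · refine hcard.trans (le_of_eq ?_)
    congr 2
    rw [Fintype.card_option, Fintype.card_sum, Fintype.card_fin, Fintype.card_fin]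
    ring
  · have h1 := hc2 t ht
    have h2 : ∀ j : Fin I, vl (a t) (ζ t) ^ (j : ℕ) = ∑ l : Fin κ,
        ((eval (Sum.elim (fun q => t (ι q)) (zt (θ t) t (ζ t)))
          ((mx (mR d o μ) (vR d N κ) ^ (j : ℕ)) l ⟨0, hκ⟩) : ℤ) : ℂ) * a t ^ (l : ℕ) := by
      intro j
      rw [← hcol t (hT' ht) j, vl]
      exact Finset.sum_congr rfl fun l _ => by rw [ev_mx]
    calc ∑ e, ∑ j : Fin I, (c e j : ℂ) * ((∏ b, (t (ι b) : ℂ) ^ (e b : ℕ)) *
          vl (a t) (ζ t) ^ (j : ℕ)) =
        ∑ l : Fin κ, ((∑ e, ∑ j : Fin I, c e j * ((∏ b, t (ι b) ^ (e b : ℕ)) *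
          eval (Sum.elim (fun q => t (ι q)) (zt (θ t) t (ζ t)))
          ((mx (mR d o μ) (vR d N κ) ^ (j : ℕ)) l ⟨0, hκ⟩)) : ℤ) : ℂ) * a t ^ (l : ℕ) := by
          symm
          push_cast
          simp only [Finset.sum_mul]
          rw [Finset.sum_comm]
          refine Finset.sum_congr rfl fun e _ => ?_
          rw [Finset.sum_comm]
          refine Finset.sum_congr rfl fun j _ => ?_
          rw [h2, Finset.mul_sum, Finset.mul_sum]
          refine Finset.sum_congr rfl fun l _ => ?_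
          ring
      _ = 0 := by
          refine Finset.sum_eq_zero fun l _ => ?_
          rw [h1 l]
          simp

end Pool.Agent.N776.HC
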